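import Mathlib

set_option autoImplicit false
open Set Filter Topology

namespace Pool.Agent.H.MP_ef0505_an

noncomputable def dl (v : ℝ) (φ : ℝ → ℝ) (s : ℝ) : ℝ := (φ (s + v) - φ s) / v

lemma mvt {φ ψ : ℝ → ℝ} (h : ∀ s, HasDerivAt φ (ψ s) s) (s : ℝ) {v : ℝ} (hv : v ≠ 0) :
    ∃ τ ∈ Icc (0 : ℝ) 1, dl v φ s = ψ (s + τ * v) := by
  have d : ∀ τ, HasDerivAt (fun τ => φ (s + τ * v)) (ψ (s + τ * v) * v) τ := fun τ =>
    (h _).comp τ (((hasDerivAt_id τ).mul_const v).const_add s |>.congr_deriv (one_mul v))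
  obtain ⟨τ, hτ, e⟩ := exists_hasDerivAt_eq_slope _ _ zero_lt_one
    (fun τ _ => (d τ).continuousAt.continuousWithinAt) (fun τ _ => d τ)
  refine ⟨τ, Ioo_subset_Icc_self hτ, ?_⟩
  simp only [one_mul, zero_mul, add_zero, sub_zero, div_one] at e
  rw [dl, ← e, mul_div_cancel_right₀ _ hv]

variable {g G : ℝ → ℝ}

lemma dl_deriv (h : ∀ s, HasDerivAt G (g s) s) (v s : ℝ) : HasDerivAt (dl v G) (dl v g s) s :=
  (((h (s + v)).comp_add_const s v).sub (h s)).div_const v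

lemma dl_nonneg (hg : Monotone g) (v s : ℝ) : 0 ≤ dl v g s := by
  rcases le_total 0 v with h | h
  · exact div_nonneg (sub_nonneg.2 (hg (by linarith))) h
  · exact div_nonneg_of_nonpos (sub_nonpos.2 (hg (by linarith))) h

lemma f1 (h : ∀ s, HasDerivAt G (g s) s) (hg : Monotone g) (u v s : ℝ) : 0 ≤ dl u (dl v G) s := by
  rcases eq_or_ne u 0 with rfl | hu
  · simp [dl]
  obtain ⟨τ, -, e⟩ := mvt (dl_deriv h v) s hu
  rw [e]; exact dl_nonneg hg _ _

lemma f2 (h : ∀ s, HasDerivAt G (g s) s) (hg : Monotone g) {v N : ℝ} (hv : v ≠ 0) (hN : 2 ≤ N)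
    (s : ℝ) : dl v (dl v G) s ≤ N * dl (N * v) g s := by
  obtain ⟨τ, ⟨t0, t1⟩, e⟩ := mvt (dl_deriv h v) s hv
  rw [e, dl, dl, show N * ((g (s + N * v) - g s) / (N * v)) = (g (s + N * v) - g s) / v by
    field_simp]
  rcases lt_or_gt_of_ne hv with h | h
  · exact div_le_div_of_nonpos_of_le h.le
      (sub_le_sub (hg (by nlinarith)) (hg (by nlinarith)))
  · exact div_le_div_of_nonneg_right (sub_le_sub (hg (by nlinarith)) (hg (by nlinarith))) h.le

lemma f3 (h : ∀ s, HasDerivAt G (g s) s) (hg : Monotone g) {u V c : ℝ} (hu : u ≠ 0) (hV : V ≠ 0)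
    (hc : 1 ≤ c) (hc' : 2 * |u| ≤ c * |V|) (s : ℝ) :
    dl V g s ≤ c * (dl u (dl V G) s + dl u (dl V G) (s - u)) := by
  have e : dl u (dl V G) s + dl u (dl V G) (s - u) =
      (dl V G (s + |u|) - dl V G (s - |u|)) / |u| := by
    generalize dl V G = Ψ
    rw [dl, dl, sub_add_cancel]
    rcases lt_or_gt_of_ne hu with h | h
    · rw [abs_of_neg h, sub_neg_eq_add, ← sub_eq_add_neg]; field_simp; ring
    · rw [abs_of_pos h]; ring
  have a0 := abs_pos.2 hu
  have V0 := abs_pos.2 hV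
  have mono : Monotone (dl V G) := monotone_of_deriv_nonneg
    (fun s => (dl_deriv h V s).differentiableAt) fun s => by
      rw [(dl_deriv h V s).deriv]; exact dl_nonneg hg _ _
  set t := |u| / c with ht
  have t0 : 0 < t := by positivity
  have t1 : t ≤ |u| := div_le_self a0.le hc
  have t2 : 2 * t ≤ |V| := by rw [ht, ← mul_div_assoc, div_le_iff₀ (by linarith)]; linarith
  have d : ∀ τ, HasDerivAt (fun τ => dl V G (s + τ) - dl V G (s - τ))
      (dl V g (s + τ) + dl V g (s - τ)) τ := fun τ =>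
    (((dl_deriv h V _).comp_const_add s τ).sub ((dl_deriv h V _).comp_const_sub s τ)).congr_deriv
      (by ring)
  obtain ⟨τ, ⟨h0, h1⟩, e2⟩ := mvt d 0 t0.ne'
  simp only [dl, zero_add, add_zero, sub_zero, sub_self] at e2
  have k : dl V g s ≤ (dl V G (s + t) - dl V G (s - t)) / t := by
    simp only [dl]
    rw [e2, ← add_div]
    have q0 : 0 ≤ τ * t := by positivity
    have q1 : τ * t ≤ t := by nlinarith
    rcases lt_or_gt_of_ne hV with h | h
    · rw [abs_of_neg h] at t2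
      refine div_le_div_of_nonpos_of_le h.le ?_
      linarith [hg (show s + τ * t + V ≤ s - τ * t by linarith), hg (show s ≤ s + τ * t by linarith),
        hg (show s - τ * t + V ≤ s + V by linarith)]
    · rw [abs_of_pos h] at t2
      refine div_le_div_of_nonneg_right ?_ h.le
      linarith [hg (show s + τ * t ≤ s - τ * t + V by linarith), hg (show s - τ * t ≤ s by linarith),
        hg (show s + V ≤ s + τ * t + V by linarith)]
  rw [e]
  refine k.trans ?_
  rw [show c * ((dl V G (s + |u|) - dl V G (s - |u|)) / |u|) =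
    (dl V G (s + |u|) - dl V G (s - |u|)) / t by rw [ht]; field_simp]
  exact div_le_div_of_nonneg_right (sub_le_sub (mono (by linarith)) (mono (by linarith))) t0.le

abbrev R := AddMonoidAlgebra ℝ ℝ

def shiftL (h : ℝ) : Module.End ℝ (ℝ → ℝ) := LinearMap.funLeft ℝ ℝ fun s => s + h

noncomputable def act : R →ₐ[ℝ] Module.End ℝ (ℝ → ℝ) :=
  AddMonoidAlgebra.lift ℝ _ ℝ
    { toFun := fun h => shiftL h.toAdd
      map_one' := by ext φ s; simp [shiftL]
      map_mul' := fun a b => by ext φ s; simp [shiftL, add_assoc] }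

noncomputable def sh (h : ℝ) : R := AddMonoidAlgebra.single h 1

lemma act_sh (h : ℝ) (φ : ℝ → ℝ) (s : ℝ) : act (sh h) φ s = φ (s + h) := by
  simp [act, sh, shiftL]

lemma sh_pow (h : ℝ) (n : ℕ) : sh h ^ n = sh (n * h) := by simp [sh]

lemma act_mul (p q : R) (φ : ℝ → ℝ) : act (p * q) φ = act p (act q φ) := by simp

def Pos (p : R) : Prop := ∀ φ : ℝ → ℝ, 0 ≤ φ → 0 ≤ act p φ

lemma Pos.mul {p q : R} (hp : Pos p) (hq : Pos q) : Pos (p * q) := fun φ h => by
  rw [act_mul]; exact hp _ (hq _ h)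

lemma Pos.add {p q : R} (hp : Pos p) (hq : Pos q) : Pos (p + q) := fun φ h => by
  rw [map_add]; exact add_nonneg (hp _ h) (hq _ h)

lemma Pos.smul {p : R} {c : ℝ} (hp : Pos p) (hc : 0 ≤ c) : Pos (c • p) := fun φ h => by
  rw [map_smul]; exact smul_nonneg hc (hp _ h)

lemma pos_sh (h : ℝ) : Pos (sh h) := fun φ hφ s => by rw [act_sh]; exact hφ (s + h)

lemma pos_one : Pos 1 := fun φ h => by simpa using h

lemma Pos.mono {p : R} (hp : Pos p) {φ ψ : ℝ → ℝ} (h : φ ≤ ψ) : act p φ ≤ act p ψ := by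
  have := hp (ψ - φ) (sub_nonneg.2 h)
  rwa [map_sub, sub_nonneg] at this

def Avg (p : R) : Prop := Pos p ∧ act p 1 = 1

lemma Avg.mul {p q : R} (hp : Avg p) (hq : Avg q) : Avg (p * q) :=
  ⟨hp.1.mul hq.1, by rw [act_mul, hq.2, hp.2]⟩

lemma Avg.le {p : R} (hp : Avg p) {φ : ℝ → ℝ} {B : ℝ} (h : ∀ s, φ s ≤ B) (s : ℝ) :
    act p φ s ≤ B := by
  have := hp.1.mono (ψ := B • 1) (fun s => by simpa using h s) s
  rw [map_smul, hp.2] at this
  simpa using this

noncomputable def dd (v : ℝ) : R := (1 / v) • (sh v - 1)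

lemma act_dd (v : ℝ) (φ : ℝ → ℝ) : act (dd v) φ = dl v φ := by
  ext s; simp [dd, dl, act_sh, div_eq_inv_mul]

noncomputable def av (m : ℕ) (v : ℝ) : R := (1 / m : ℝ) • ∑ i ∈ Finset.range m, sh (2 * i * v)

noncomputable def hf (v : ℝ) : R := (1 / 2 : ℝ) • (1 + sh v)

lemma act_av (m : ℕ) (v : ℝ) (φ : ℝ → ℝ) (s : ℝ) :
    act (av m v) φ s = (1 / m : ℝ) * ∑ i ∈ Finset.range m, φ (s + 2 * i * v) := by
  simp [av, act_sh]

lemma act_hf (v : ℝ) (φ : ℝ → ℝ) (s : ℝ) : act (hf v) φ s = 1 / 2 * (φ s + φ (s + v)) := by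
  simp [hf, act_sh, mul_add]

lemma avg_av {m : ℕ} (hm : 0 < m) (v : ℝ) : Avg (av m v) := by
  refine ⟨fun φ h s => ?_, ?_⟩
  · rw [act_av]; exact mul_nonneg (by positivity) (Finset.sum_nonneg fun _ _ => h _)
  · ext s; rw [act_av]; simp [hm.ne']

lemma avg_hf (v : ℝ) : Avg (hf v) :=
  ⟨(pos_one.add (pos_sh v)).smul (by norm_num), by ext s; rw [act_hf]; norm_num⟩

lemma sh_add (a b : ℝ) : sh (a + b) = sh a * sh b := by
  simp [sh, AddMonoidAlgebra.single_mul_single]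

lemma tele {m : ℕ} (v : ℝ) : av m v * hf v * dd v = dd (2 * m * v) := by
  have e := geom_sum_mul (sh v ^ 2) m
  simp only [← pow_mul] at e
  have e1 : ∀ i : ℕ, sh (2 * i * v) = sh v ^ (2 * i) := fun i => by rw [sh_pow]; push_cast; rfl
  simp only [av, hf, dd, e1, smul_mul_smul_comm]
  rw [← e, show (1 / m * (1 / 2) * (1 / v) : ℝ) = 1 / (2 * m * v) by ring]
  congr 1; ring

end Pool.Agent.H.MP_ef0505_an
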