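import Pool.Agent.H.MP_ef0505_an.A

set_option autoImplicit false
open Set Filter Topology

namespace Pool.Agent.H.MP_ef0505_an

noncomputable def sc (m : ℕ) (α : ℝ) (k : ℕ) : ℝ := α / (2 * m) ^ k

noncomputable def C (m n : ℕ) (u v : ℝ) : R := av m u * av n v * hf (u + v)

noncomputable def E (m n : ℕ) (α β : ℝ) (k : ℕ) : R :=
  ∏ l ∈ Finset.range k, C m n (sc m α (l + 1)) (sc n β (l + 1))

noncomputable def M (m n : ℕ) (α β : ℝ) (G : ℝ → ℝ) (k : ℕ) : ℝ → ℝ :=
  act (E m n α β k * (dd (sc m α k) * dd (sc n β k))) G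

noncomputable def Xs (m : ℕ) (α : ℝ) (l d : ℕ) : R :=
  ∏ j ∈ Finset.range d, av m (sc m α (l + j + 1)) * hf (sc m α (l + j + 1))

lemma E_symm (m n : ℕ) (α β : ℝ) (k : ℕ) : E m n α β k = E n m β α k :=
  Finset.prod_congr rfl fun _ _ => by rw [C, C, add_comm (sc m α _), mul_comm (av m _)]

lemma M_symm (m n : ℕ) (α β : ℝ) (G : ℝ → ℝ) : M m n α β G = M n m β α G := by
  ext1 k; rw [M, M, E_symm, mul_comm (dd _)]

lemma sc_succ {m : ℕ} (hm : 0 < m) (α : ℝ) (k : ℕ) : 2 * m * sc m α (k + 1) = sc m α k := by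
  have : (0 : ℝ) < m := by exact_mod_cast hm
  simp only [sc]; field_simp; ring

lemma sc_ne {m : ℕ} (hm : 0 < m) {α : ℝ} (h : α ≠ 0) (k : ℕ) : sc m α k ≠ 0 := by
  have : (0 : ℝ) < m := by exact_mod_cast hm
  simp only [sc]; positivity

lemma avg_prod {p : ℕ → R} (h : ∀ i, Avg (p i)) (k : ℕ) : Avg (∏ i ∈ Finset.range k, p i) := by
  induction k with
  | zero => exact ⟨by simpa using pos_one, by simp⟩
  | succ k ih => rw [Finset.prod_range_succ]; exact ih.mul (h k)

variable {m n : ℕ} {α β : ℝ} {g G : ℝ → ℝ}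

lemma avg_E (hm : 0 < m) (hn : 0 < n) (k : ℕ) : Avg (E m n α β k) :=
  avg_prod (fun _ => ((avg_av hm _).mul (avg_av hn _)).mul (avg_hf _)) k

lemma avg_Xs (hm : 0 < m) (l d : ℕ) : Avg (Xs m α l d) :=
  avg_prod (fun _ => (avg_av hm _).mul (avg_hf _)) d

lemma Xs_dd (hm : 0 < m) (l d : ℕ) : Xs m α l d * dd (sc m α (l + d)) = dd (sc m α l) := by
  induction d with
  | zero => simp [Xs]
  | succ d ih =>
    rw [Xs, Finset.prod_range_succ, mul_assoc, ← add_assoc, tele, sc_succ hm]; exact ih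

lemma drop (hm : 0 < m) (hn : 0 < n) (hg : Monotone g) (l d : ℕ) :
    act (E m n α β (l + d) * dd (sc n β (l + d))) g ≤
      (2 : ℝ) ^ d • act (E m n α β l * Xs m α l d * dd (sc n β l)) g := by
  induction d with
  | zero => simp [Xs]
  | succ d ih =>
    set u := sc m α (l + d + 1) with hu
    set v := sc n β (l + d + 1) with hv
    have p : Pos (E m n α β (l + d) * (av m u * av n v * ((1 / 2 : ℝ) • (sh u + sh v)))) :=
      (avg_E hm hn _).1.mul (((avg_av hm _).1.mul (avg_av hn _).1).mul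
        (((pos_sh _).add (pos_sh _)).smul (by norm_num)))
    have q := p (act (dd v) g) (fun s => by rw [act_dd]; exact dl_nonneg hg _ _)
    have e : E m n α β (l + (d + 1)) * dd v + E m n α β (l + d) * (av m u * av n v *
        ((1 / 2 : ℝ) • (sh u + sh v))) * dd v =
        (2 : ℝ) • (av m u * hf u * (E m n α β (l + d) * dd (sc n β (l + d)))) := by
      rw [← sc_succ hn β (l + d), ← tele, ← add_assoc, E, Finset.prod_range_succ, ← E, ← hu, ← hv,
        C, hf, hf, hf, sh_add]
      simp only [mul_smul_comm, smul_mul_assoc, smul_smul, ← smul_add]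
      norm_num
      rw [← smul_add]
      congr 1; ring
    have r := ((avg_av hm u).mul (avg_hf u)).1.mono ih
    rw [← act_mul] at q
    calc _ ≤ act (E m n α β (l + (d + 1)) * dd v) g + _ := le_add_of_nonneg_right q
      _ = (2 : ℝ) • act (av m u * hf u) (act (E m n α β (l + d) * dd (sc n β (l + d))) g) := by
        rw [← LinearMap.add_apply, ← map_add, e, map_smul, ← act_mul]; rfl
      _ ≤ (2 : ℝ) • act (av m u * hf u) ((2 : ℝ) ^ d • act (E m n α β l * Xs m α l d *
          dd (sc n β l)) g) := smul_le_smul_of_nonneg_left r (by norm_num)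
      _ = _ := by
        rw [map_smul, smul_smul, ← act_mul, pow_succ' 2 d, Xs, Xs, Finset.prod_range_succ]
        congr 3; ring

lemma step (hm : 0 < m) (hn : 0 < n) (hα : α ≠ 0) (hβ : β ≠ 0) (h : ∀ s, HasDerivAt G (g s) s)
    (hg : Monotone g) (l d : ℕ) {B c : ℝ} (hB : ∀ s, M m n α β G l s ≤ B) (hc : 1 ≤ c)
    (hc' : 2 * |sc m α (l + d)| ≤ c * |sc n β l|) (s : ℝ) :
    M m n α β G (l + d + 1) s ≤ M m n α β G (l + d) s +
      |sc n β (l + d + 1) / sc m α (l + d + 1)| * (2 * n * (2 ^ d * (c * (2 * B)))) := by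
  set u := sc m α (l + d + 1) with hu
  set v := sc n β (l + d + 1) with hv
  have u0 : u ≠ 0 := sc_ne hm hα _
  have v0 : v ≠ 0 := sc_ne hn hβ _
  have n1 : (1 : ℝ) ≤ n := by exact_mod_cast hn
  have a1 : ∀ s, act (E m n α β l * Xs m α l d * dd (sc n β l)) g s ≤ c * (2 * B) := fun s => by
    have q := ((avg_E (α := α) (β := β) hm hn l).mul (avg_Xs (α := α) hm l d)).1.mono
      (φ := act (dd (sc n β l)) g) (ψ := act (c • ((1 + sh (-sc m α (l + d))) *
        (dd (sc m α (l + d)) * dd (sc n β l)))) G) (fun s => by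
        have := f3 h hg (sc_ne hm hα _) (sc_ne hn hβ _) hc hc' s
        simpa [act_dd, act_sh, sub_eq_add_neg] using this) s
    rw [← act_mul, ← act_mul, mul_smul_comm, show E m n α β l * Xs m α l d *
      ((1 + sh (-sc m α (l + d))) * (dd (sc m α (l + d)) * dd (sc n β l))) =
      (1 + sh (-sc m α (l + d))) * (E m n α β l * (Xs m α l d * dd (sc m α (l + d)) *
        dd (sc n β l))) by ring, Xs_dd hm, map_smul, LinearMap.smul_apply, act_mul (1 + _)] at q
    refine q.trans ?_
    simp only [map_add, map_one, LinearMap.add_apply, Module.End.one_apply, Pi.smul_apply,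
      Pi.add_apply, act_sh, smul_eq_mul]
    have := hB s; have := hB (s + -sc m α (l + d))
    unfold M at *
    gcongr; linarith
  have a2 : ∀ s, act (E m n α β (l + d)) (act (dd v * dd v) G) s ≤
      2 * n * (2 ^ d * (c * (2 * B))) := fun s => by
    have q := (avg_E (α := α) (β := β) hm hn (l + d)).1.mono (φ := act (dd v * dd v) G)
      (ψ := (2 * n : ℝ) • act (dd (sc n β (l + d))) g) (fun s => by
        have := f2 h hg v0 (show (2 : ℝ) ≤ 2 * n by linarith) s
        rw [hv, sc_succ hn] at this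
        simpa [act_dd] using this) s
    rw [map_smul, ← act_mul (E _ _ _ _ _) (dd _)] at q
    refine q.trans ?_
    have := drop (α := α) (β := β) hm hn hg l d s
    simp only [Pi.smul_apply, smul_eq_mul] at this ⊢
    have := a1 s
    gcongr
    refine le_trans ‹_› ?_
    gcongr
  have p : Pos (E m n α β (l + d) * (av m u * av n v * (((|v / u| - v / u) / 4) • (1 + sh (u + u)) +
      ((|v / u| + v / u) / 2) • sh u))) :=
    (avg_E hm hn _).1.mul (((avg_av hm _).1.mul (avg_av hn _).1).mul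
      (((pos_one.add (pos_sh _)).smul (by linarith [le_abs_self (v / u)])).add
        ((pos_sh _).smul (by linarith [neg_abs_le (v / u)]))))
  have q := p (act (dd v * dd v) G) (fun s => by
    rw [act_mul, act_dd, act_dd]; exact f1 h hg _ _ _) s
  have e : E m n α β (l + d + 1) * (dd u * dd v) + E m n α β (l + d) * (av m u * av n v *
      (((|v / u| - v / u) / 4) • (1 + sh (u + u)) + ((|v / u| + v / u) / 2) • sh u)) *
      (dd v * dd v) = E m n α β (l + d) * (dd (sc m α (l + d)) * dd (sc n β (l + d))) +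
      |v / u| • (av m u * av n v * (hf u * hf u) * (E m n α β (l + d) * (dd v * dd v))) := by
    rw [← sc_succ hn β (l + d), ← sc_succ hm α (l + d), ← tele, ← tele, E, Finset.prod_range_succ,
      ← E, ← hu, ← hv, C]
    generalize |v / u| = ρ
    simp only [hf, dd, sh_add, Algebra.smul_def]
    have i1 : algebraMap ℝ R ((ρ - v / u) / 4) = (algebraMap ℝ R ρ - algebraMap ℝ R v *
        algebraMap ℝ R (1 / u)) * algebraMap ℝ R (1 / 2) ^ 2 := by
      rw [← map_mul, ← map_sub, ← map_pow, ← map_mul]; congr 1; ring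
    have i2 : algebraMap ℝ R ((ρ + v / u) / 2) = (algebraMap ℝ R ρ + algebraMap ℝ R v *
        algebraMap ℝ R (1 / u)) * algebraMap ℝ R (1 / 2) := by
      rw [← map_mul, ← map_add, ← map_mul]; congr 1; ring
    have i3 : algebraMap ℝ R v * algebraMap ℝ R (1 / v) = 1 := by
      rw [← map_mul, mul_one_div_cancel v0, map_one]
    have i4 : 2 * algebraMap ℝ R (1 / 2) = 1 := by
      rw [← map_ofNat (algebraMap ℝ R) 2, ← map_mul, mul_one_div_cancel two_ne_zero, map_one]
    rw [i1, i2]
    generalize algebraMap ℝ R (1 / 2) = t at *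
    generalize algebraMap ℝ R (1 / u) = a at *
    generalize algebraMap ℝ R (1 / v) = b at *
    generalize algebraMap ℝ R v = w at *
    generalize algebraMap ℝ R ρ = r at *
    generalize E m n α β (l + d) = e
    generalize av m u = A1
    generalize av n v = A2
    generalize sh u = x
    generalize sh v = y
    linear_combination e * A1 * A2 * b * (y - 1) * a * (y - 1) * (t * x - t ^ 2 * (1 + x ^ 2)) * i3 -
      e * A1 * A2 * b * (y - 1) * t * (a * ((1 + x * y) * (x - 1) + (y - 1) * x) +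
        r * b * (y - 1) * x) * i4
  have a3 := (((avg_av hm u).mul (avg_av hn v)).mul ((avg_hf u).mul (avg_hf u))).le a2 s
  have e2 := congrArg (fun p => act p G s) e
  simp only [map_add, map_smul, LinearMap.add_apply, LinearMap.smul_apply, Pi.add_apply,
    Pi.smul_apply, smul_eq_mul] at e2
  rw [← act_mul, ← act_mul, mul_assoc (_ * (hf u * hf u))] at a3
  rw [← act_mul] at q
  have := mul_le_mul_of_nonneg_left a3 (abs_nonneg (v / u))
  unfold M
  simp only [Pi.zero_apply] at q
  linarith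

lemma step' (hm : 2 ≤ m) (hn : 2 ≤ n) (hmn : m * n ≤ 16) (hα : α ≠ 0) (hβ : β ≠ 0)
    (h : ∀ s, HasDerivAt G (g s) s) (hg : Monotone g) (k : ℕ) {B r : ℝ} (hB0 : 0 ≤ B)
    (hB : ∀ l ≤ k, ∀ s, M m n α β G l s ≤ B) (hr0 : 0 < r) (hr1 : r ≤ 1)
    (hr : |sc n β (k + 1) / sc m α (k + 1)| = r ^ 2) (s : ℝ) :
    M m n α β G (k + 1) s ≤ M m n α β G k s + 256 * (r + (1 / 2) ^ k) * B := by
  obtain ⟨d, hd, d1, d2⟩ : ∃ d ≤ k, 2 ^ d * r ≤ 1 ∧ (1 / 2 : ℝ) ^ d ≤ 2 * r + (1 / 2) ^ k := by
    obtain ⟨e, e1, e2⟩ := exists_nat_pow_near_of_lt_one hr0 hr1 (by norm_num : (0 : ℝ) < 1 / 2)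
      (by norm_num)
    have t : ∀ j ≤ e, 2 ^ j * r ≤ 1 := fun j hj =>
      calc (2 : ℝ) ^ j * r ≤ 2 ^ e * (1 / 2) ^ e := by gcongr; norm_num
        _ = 1 := by rw [← mul_pow]; norm_num
    rcases le_total e k with h | h
    · refine ⟨e, h, t e le_rfl, ?_⟩
      rw [pow_succ] at e1
      have : (0 : ℝ) < (1 / 2) ^ k := by positivity
      linarith
    · exact ⟨k, le_rfl, t k h, by linarith⟩
  obtain ⟨l, rfl⟩ : ∃ l, k = l + d := ⟨k - d, by omega⟩
  have m2 : (2 : ℝ) ≤ m := by exact_mod_cast hm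
  have n2 : (2 : ℝ) ≤ n := by exact_mod_cast hn
  have mn : (m : ℝ) * n ≤ 16 := by exact_mod_cast hmn
  have l0 := abs_pos.2 (sc_ne (show 0 < n by omega) hβ l)
  have u0 := abs_pos.2 (sc_ne (show 0 < m by omega) hα (l + d + 1))
  refine (step (by omega) (by omega) hα hβ h hg l d (hB l (by omega))
    (c := 1 + 2 * |sc m α (l + d)| / |sc n β l|) (le_add_of_nonneg_right (by positivity))
    (by rw [add_mul, div_mul_cancel₀ _ l0.ne']; linarith) s).trans ?_
  have e1 : |sc n β (l + d + 1) / sc m α (l + d + 1)| * (2 * |sc m α (l + d)| / |sc n β l|) =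
      2 * m / n / (2 * n) ^ d := by
    have e2 : sc n β l = (2 * n) ^ d * (2 * n) * sc n β (l + d + 1) := by
      simp only [sc]; field_simp; ring
    have v0 := abs_pos.2 (sc_ne (show 0 < n by omega) hβ (l + d + 1))
    rw [← sc_succ (show 0 < m by omega) α (l + d), e2, abs_div, abs_mul, abs_mul (_ * _),
      abs_of_pos (by positivity : (0 : ℝ) < 2 * m),
      abs_of_pos (by positivity : (0 : ℝ) < (2 * n) ^ d * (2 * n))]
    field_simp
  have e3 : (2 : ℝ) ^ d / (2 * n) ^ d ≤ (1 / 2) ^ d := by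
    rw [← div_pow]
    exact pow_le_pow_left₀ (by positivity) (by rw [div_le_iff₀ (by positivity)]; linarith) _
  have e4 : |sc n β (l + d + 1) / sc m α (l + d + 1)| * (2 * n * (2 ^ d *
      ((1 + 2 * |sc m α (l + d)| / |sc n β l|) * (2 * B)))) =
      (4 * n * (2 ^ d * r) * r + 8 * m * (2 ^ d / (2 * n) ^ d)) * B := by
    calc _ = (4 * n * 2 ^ d * |sc n β (l + d + 1) / sc m α (l + d + 1)| + 4 * n * 2 ^ d *
        (|sc n β (l + d + 1) / sc m α (l + d + 1)| * (2 * |sc m α (l + d)| / |sc n β l|))) * B := by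
          ring
      _ = _ := by rw [e1, hr]; field_simp; ring
  rw [e4]
  have n8 : (n : ℝ) ≤ 8 := by nlinarith
  have m8 : (m : ℝ) ≤ 8 := by nlinarith
  have : (0 : ℝ) < (1 / 2) ^ (l + d) := by positivity
  gcongr
  calc _ ≤ 4 * 8 * 1 * r + 8 * 8 * (2 * r + (1 / 2) ^ (l + d)) := by
        gcongr; exact e3.trans d2
    _ ≤ _ := by linarith

lemma bound (hα : α ≠ 0) (hβ : β ≠ 0) (h : ∀ s, HasDerivAt G (g s) s) (hg : Monotone g) {B : ℝ}
    (hB0 : 0 ≤ B) (hB : ∀ s, dl α (dl β G) s ≤ B) (k : ℕ) (s : ℝ) :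
    M 2 8 α β G k s ≤ Real.exp 2048 * B := by
  set q := √|β / α| with hq
  have q0 : 0 < q := Real.sqrt_pos.2 (abs_pos.2 (div_ne_zero hβ hα))
  let S : ℕ → ℝ := fun k => 256 * (6 / (1 + q / 2 ^ k) + 2 - 2 * (1 / 2) ^ k)
  have key : ∀ k, ∀ l ≤ k, ∀ s, M 2 8 α β G l s ≤ Real.exp (S k) * B := fun k => by
    induction k with
    | zero =>
      intro l hl s
      obtain rfl := Nat.le_zero.1 hl
      have : 1 ≤ Real.exp (S 0) := Real.one_le_exp (by simp only [S]; norm_num; positivity)
      refine le_trans ?_ (le_mul_of_one_le_left hB0 this)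
      simpa [M, E, sc, act_dd] using hB s
    | succ k ih =>
      set a := q / 2 ^ (k + 1) with ha
      have a0 : 0 < a := by positivity
      have e : |sc 8 β (k + 1) / sc 2 α (k + 1)| = a ^ 2 := by
        rw [ha, div_pow, hq, Real.sq_sqrt (abs_nonneg _), ← pow_mul, mul_comm, pow_mul]
        simp only [sc]
        rw [show ((2 : ℝ) * (8 : ℕ)) = 2 ^ 2 * (2 * (2 : ℕ)) by norm_num, mul_pow, div_div_div_comm,
          abs_div, mul_div_cancel_right₀ _ (by positivity), abs_of_pos (a := (2 ^ 2) ^ _) (by positivity)]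
      have st : ∀ s, M 2 8 α β G (k + 1) s ≤ M 2 8 α β G k s + 256 * (min a a⁻¹ + (1 / 2) ^ k) *
          (Real.exp (S k) * B) := fun s => by
        rcases le_total a 1 with h1 | h1
        · rw [min_eq_left (h1.trans (one_le_inv_iff₀.2 ⟨a0, h1⟩))]
          exact step' le_rfl (by norm_num) (by norm_num) hα hβ h hg k (by positivity) ih a0 h1 e s
        · rw [min_eq_right ((inv_le_one_of_one_le₀ h1).trans h1), M_symm] at *
          exact step' (by norm_num) le_rfl (by norm_num) hβ hα h hg k (by positivity) ih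
            (by positivity) (inv_le_one_of_one_le₀ h1) (by rw [inv_pow, ← e, ← abs_inv, inv_div]) s
      have inc : 256 * (min a a⁻¹ + (1 / 2) ^ k) + S k ≤ S (k + 1) := by
        have : min a a⁻¹ ≤ 6 / (1 + a) - 6 / (1 + 2 * a) := by
          rw [div_sub_div _ _ (by positivity) (by positivity), le_div_iff₀ (by positivity)]
          rcases le_total a 1 with h1 | h1
          · exact (mul_le_mul_of_nonneg_right (min_le_left _ _) (by positivity)).trans (by nlinarith)
          · refine (mul_le_mul_of_nonneg_right (min_le_right _ _) (by positivity)).trans ?_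
            rw [inv_mul_le_iff₀ a0]; nlinarith
        simp only [S, ← ha, show q / 2 ^ k = 2 * a by rw [ha]; field_simp; ring]
        rw [pow_succ]
        linarith
      have p0 : 0 ≤ 256 * (min a a⁻¹ + (1 / 2) ^ k) := by positivity
      intro l hl s
      rcases hl.eq_or_lt with rfl | hl
      · refine (st s).trans ((add_le_add_left (ih k le_rfl s) _).trans ?_)
        calc _ = (256 * (min a a⁻¹ + (1 / 2) ^ k) + 1) * Real.exp (S k) * B := by ring
          _ ≤ Real.exp (256 * (min a a⁻¹ + (1 / 2) ^ k)) * Real.exp (S k) * B := by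
            gcongr; exact Real.add_one_le_exp _
          _ ≤ _ := by rw [← Real.exp_add]; gcongr
      · refine (ih l (by omega) s).trans ?_
        gcongr; linarith
  refine (key k k le_rfl s).trans ?_
  gcongr
  have : 6 / (1 + q / 2 ^ k) ≤ 6 := div_le_self (by norm_num) (le_add_of_nonneg_right (by positivity))
  have : (0 : ℝ) < (1 / 2) ^ k := by positivity
  simp only [S]; linarith

end Pool.Agent.H.MP_ef0505_an
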