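import Pool.Agent.H.MP_ef0505_an.B

set_option autoImplicit false
open Set Filter Topology MeasureTheory Metric

namespace Pool.Agent.H.MP_ef0505_an

abbrev E2 := EuclideanSpace ℝ (Fin 2)

def D : Finset (Fin 4 × Fin 16) := Finset.univ.filter fun d => d.1.1 % 2 = d.2.1 % 2

noncomputable def S (d : Fin 4 × Fin 16) (z : E2) : E2 :=
  !₂[(z 0 + (d.1 : ℕ)) / (4 : ℕ), (z 1 + (d.2 : ℕ)) / (16 : ℕ)]

lemma exF : ∃ F : Set E2, IsCompact F ∧ 0 ∈ F ∧ (∀ z ∈ F, |z 0| ≤ 1 ∧ |z 1| ≤ 1) ∧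
    F = ⋃ d ∈ D, S d '' F := by
  let T : Set E2 → Set E2 := fun F => ⋃ d ∈ D, S d '' F
  have mono : ∀ A B, A ⊆ B → T A ⊆ T B := fun A B h => iUnion₂_mono fun _ _ => image_mono h
  let F := ⋂₀ {C | IsClosed C ∧ 0 ∈ C ∧ T C ⊆ C}
  have h0 : (0 : E2) ∈ F := fun C hC => hC.2.1
  have h1 : T F ⊆ F := fun z hz C hC => hC.2.2 (mono _ _ (sInter_subset_of_mem hC) hz)
  have h2 : F ⊆ {z | |z 0| ≤ 1 ∧ |z 1| ≤ 1} := sInter_subset_of_mem ⟨(isClosed_le (f := fun z : E2 => |z 0|)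
    (by fun_prop) continuous_const).inter (isClosed_le (f := fun z : E2 => |z 1|) (by fun_prop) continuous_const),
    by simp, fun z hz => by
      obtain ⟨d, -, y, ⟨y0, y1⟩, rfl⟩ := by simpa only [T, mem_iUnion, exists_prop] using hz
      have a : ((d.1 : ℕ) : ℝ) ≤ 3 := by exact_mod_cast Nat.lt_succ_iff.1 d.1.2
      have b : ((d.2 : ℕ) : ℝ) ≤ 15 := by exact_mod_cast Nat.lt_succ_iff.1 d.2.2
      have : (0 : ℝ) ≤ (d.1 : ℕ) := by positivity
      have : (0 : ℝ) ≤ (d.2 : ℕ) := by positivity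
      rw [abs_le] at y0 y1
      simp only [S, mem_ofPred_eq, Matrix.cons_val_zero, Matrix.cons_val_one,
        abs_le, Nat.cast_ofNat]
      refine ⟨⟨?_, ?_⟩, ?_, ?_⟩ <;> linarith⟩
  have hc : IsCompact F := by
    refine isCompact_of_isClosed_isBounded (isClosed_sInter fun C hC => hC.1)
      (isBounded_iff_forall_norm_le.2 ⟨√2, fun z hz => ?_⟩)
    rw [EuclideanSpace.norm_eq, Fin.sum_univ_two]
    have := pow_le_one₀ (abs_nonneg _) (h2 hz).1 (n := 2)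
    have := pow_le_one₀ (abs_nonneg _) (h2 hz).2 (n := 2)
    exact Real.sqrt_le_sqrt (by simp only [Real.norm_eq_abs]; linarith)
  refine ⟨F, hc, h0, fun z hz => h2 hz, Subset.antisymm (sInter_subset_of_mem ⟨?_, ?_, mono _ _ h1⟩) h1⟩
  · exact (D.isCompact_biUnion fun d _ => hc.image (by unfold S; fun_prop)).isClosed
  · exact mem_biUnion (show (0, 0) ∈ D by decide) ⟨0, h0, by ext i; fin_cases i <;> simp [S]⟩

noncomputable def av2 (k : ℕ) (Φ : ℝ → ℝ → ℝ) (x y : ℝ) : ℝ :=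
  (1 / (2 : ℕ) : ℝ) * ∑ i ∈ Finset.range 2, (1 / (8 : ℕ) : ℝ) * ∑ j ∈ Finset.range 8, 1 / 2 *
    (Φ (x + 2 * i * sc 2 1 k) (y + 2 * j * sc 8 1 k) +
      Φ (x + (2 * i + 1) * sc 2 1 k) (y + (2 * j + 1) * sc 8 1 k))

noncomputable def L : ℕ → (ℝ → ℝ → ℝ) → ℝ
  | 0, Φ => Φ 0 0
  | k + 1, Φ => L k (av2 (k + 1) Φ)

lemma L_E (α β : ℝ) (k : ℕ) (φ : ℝ → ℝ) :
    L k (fun x y => φ (α * x + β * y)) = act (E 2 8 α β k) φ 0 := by
  induction k generalizing φ with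
  | zero => simp [L, E]
  | succ k ih =>
    rw [L, E, Finset.prod_range_succ, act_mul, ← E, ← ih]
    congr 1
    ext x y
    rw [C, act_mul, act_mul, act_av]
    simp only [act_av, act_hf, av2]
    refine congrArg _ (Finset.sum_congr rfl fun i _ => congrArg _ (Finset.sum_congr rfl fun j _ => ?_))
    congr 3 <;> simp only [sc] <;> ring

lemma L_sum {ι : Type} (s : Finset ι) (k : ℕ) (Φ : ι → ℝ → ℝ → ℝ) :
    L k (fun x y => ∑ t ∈ s, Φ t x y) = ∑ t ∈ s, L k (Φ t) := by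
  induction k generalizing Φ with
  | zero => rfl
  | succ k ih =>
    simp only [L, ← ih]
    congr 1
    ext x y
    simp only [av2, ← Finset.sum_add_distrib, Finset.mul_sum]
    exact (Finset.sum_congr rfl fun _ _ => Finset.sum_comm).trans Finset.sum_comm

lemma L_ge {F : Set E2} (hF : F = ⋃ d ∈ D, S d '' F) (k : ℕ) (Φ : ℝ → ℝ → ℝ)
    (h : ∀ x y, (∀ p ∈ F, !₂[x + p 0 * sc 2 1 k, y + p 1 * sc 8 1 k] ∈ F) → 1 ≤ Φ x y) :
    1 ≤ L k Φ := by
  induction k generalizing Φ with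
  | zero =>
    refine h 0 0 fun p hp => ?_
    rwa [show !₂[0 + p 0 * sc 2 1 0, 0 + p 1 * sc 8 1 0] = p by ext i; fin_cases i <;> simp [sc]]
  | succ k ih =>
    refine ih _ fun x y hxy => ?_
    have key : ∀ i j : ℕ, i < 4 → j < 16 → i % 2 = j % 2 →
        1 ≤ Φ (x + i * sc 2 1 (k + 1)) (y + j * sc 8 1 (k + 1)) := fun i j hi hj e => h _ _ fun p hp => by
      have : S (⟨i, hi⟩, ⟨j, hj⟩) p ∈ F := by
        rw [hF]; exact mem_biUnion (by simpa [D] using e) ⟨p, hp, rfl⟩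
      convert hxy _ this using 3 <;> simp [S, sc] <;> ring
    calc (1 : ℝ) = (1 / (2 : ℕ) : ℝ) * ∑ _i ∈ Finset.range 2, (1 / (8 : ℕ) : ℝ) *
          ∑ _j ∈ Finset.range 8, 1 / 2 * (1 + 1) := by norm_num
      _ ≤ _ := by
        unfold av2
        gcongr with i hi j hj
        · simpa using key (2 * i) (2 * j) (by grind) (by grind) (by omega)
        · simpa using key (2 * i + 1) (2 * j + 1) (by grind) (by grind) (by omega)

lemma exG (c w : ℝ) (hw : 0 ≤ w) : ∃ g G : ℝ → ℝ, (∀ s, HasDerivAt G (g s) s) ∧ Monotone g ∧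
    (∀ u v s, u ≠ 0 → v ≠ 0 → (1 / 2 ≤ |u| ∨ 1 / 2 ≤ |v|) → dl u (dl v G) s ≤ 4 * w) ∧
    ∀ u v s, u ≠ 0 → v ≠ 0 → |s - c| + |u| + |v| ≤ w → dl u (dl v G) s = 1 := by
  let g : ℝ → ℝ := fun s => min (max s (c - w)) (c + w)
  have hc : Continuous g := by fun_prop
  have hd : ∀ s, HasDerivAt (fun s => ∫ t in (0 : ℝ)..s, g t) (g s) s := fun s =>
    (hc.integral_hasStrictDerivAt 0 s).hasDerivAt
  have b : ∀ u v s, u ≠ 0 → 1 / 2 ≤ |v| → dl u (dl v fun s => ∫ t in (0 : ℝ)..s, g t) s ≤ 4 * w :=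
    fun u v s hu hv => by
      obtain ⟨τ, -, e⟩ := mvt (dl_deriv hd v) s hu
      have k : ∀ s, c - w ≤ g s ∧ g s ≤ c + w := fun s =>
        ⟨le_min (le_max_right _ _) (by linarith), min_le_right _ _⟩
      rw [e, dl]
      refine (le_abs_self _).trans ?_
      rw [abs_div, div_le_iff₀ (by linarith)]
      refine le_trans (abs_le.2 ⟨?_, ?_⟩) (show 2 * w ≤ _ by nlinarith) <;>
        linarith [k (s + τ * u + v), k (s + τ * u)]
  refine ⟨g, _, hd, fun a b h => min_le_min_right _ (max_le_max_right _ h), ?_, ?_⟩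
  · rintro u v s hu hv (h | h)
    · refine le_trans (le_of_eq ?_) (b v u s hv h)
      simp only [dl, add_right_comm s u v]; ring
    · exact b u v s hu h
  · intro u v s hu hv h
    obtain ⟨τ, ⟨t0, t1⟩, e⟩ := mvt (dl_deriv hd v) s hu
    have k : ∀ s, |s - c| ≤ w → g s = s := fun s h => by
      rw [abs_le] at h
      simp only [g]; rw [max_eq_left (by linarith), min_eq_left (by linarith)]
    have q : |s + τ * u - c| ≤ |s - c| + |u| := by
      rw [show s + τ * u - c = s - c + τ * u by ring]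
      refine (abs_add_le _ _).trans ?_
      rw [abs_mul, abs_of_nonneg t0]
      linarith [mul_le_of_le_one_left (abs_nonneg u) t1]
    rw [e, dl, k _ (by linarith [abs_nonneg v] : |s + τ * u - c| ≤ w), k _ (by
      rw [show s + τ * u + v - c = s + τ * u - c + v by ring]
      linarith [abs_add_le (s + τ * u - c) v]), add_sub_cancel_left, div_self hv]

lemma normal (a b : E2) {ε : ℝ} (hε : 0 < ε) : ∃ α β c : ℝ, α ≠ 0 ∧ β ≠ 0 ∧ 
    (1 / 2 ≤ |α| ∨ 1 / 2 ≤ |β|) ∧ ∀ z ∈ thickening ε (segment ℝ a b),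
    |z 0| ≤ 1 → |z 1| ≤ 1 → |α * z 0 + β * z 1 - c| ≤ 3 * ε := by
  obtain ⟨α, β, h1, h2⟩ : ∃ α β : ℝ, α ^ 2 + β ^ 2 = 1 ∧ α * (b 0 - a 0) + β * (b 1 - a 1) = 0 := by
    set p := b 0 - a 0
    set q := b 1 - a 1
    rcases eq_or_lt_of_le (show 0 ≤ p ^ 2 + q ^ 2 by positivity) with h | h
    · exact ⟨1, 0, by norm_num, by nlinarith [sq_nonneg p, sq_nonneg q]⟩
    · have := Real.sqrt_pos.2 h
      refine ⟨-q / √(p ^ 2 + q ^ 2), p / √(p ^ 2 + q ^ 2), ?_, by ring⟩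
      rw [div_pow, div_pow, Real.sq_sqrt h.le]; field_simp; ring
  have pert : ∀ x : ℝ, ∃ y, y ≠ 0 ∧ |x| ≤ |y| ∧ |y - x| ≤ ε := fun x => by
    rcases eq_or_ne x 0 with rfl | h
    · exact ⟨ε, hε.ne', by simp, by simp [abs_of_pos hε]⟩
    · exact ⟨x, h, le_rfl, by simpa using hε.le⟩
  obtain ⟨α', a0, a2, a3⟩ := pert α
  obtain ⟨β', b0, b2, b3⟩ := pert β
  refine ⟨α', β', α * a 0 + β * a 1, a0, b0, ?_, fun z hz z0 z1 => ?_⟩
  · by_contra hc
    push Not at hc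
    nlinarith [sq_abs α, sq_abs β, abs_nonneg α, abs_nonneg β]
  obtain ⟨p, hp, hd⟩ := mem_thickening_iff.1 hz
  rw [segment_eq_image'] at hp
  obtain ⟨t, -, rfl⟩ := hp
  rw [EuclideanSpace.dist_eq, Fin.sum_univ_two, Real.sqrt_lt' hε, Real.dist_eq, Real.dist_eq,
    sq_abs, sq_abs] at hd
  simp only [PiLp.add_apply, PiLp.smul_apply, PiLp.sub_apply, smul_eq_mul] at hd
  set x := z 0 - (a 0 + t * (b 0 - a 0)) with hx
  set y := z 1 - (a 1 + t * (b 1 - a 1)) with hy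
  have k : |α * x + β * y| ≤ ε := abs_le_of_sq_le_sq (by nlinarith [sq_nonneg (α * y - β * x)]) hε.le
  have k0 := (abs_mul _ _).le.trans (mul_le_mul a3 z0 (abs_nonneg _) hε.le)
  have k1 := (abs_mul _ _).le.trans (mul_le_mul b3 z1 (abs_nonneg _) hε.le)
  rw [show α' * z 0 + β' * z 1 - (α * a 0 + β * a 1) = α * x + β * y + (α' - α) * z 0 +
    (β' - β) * z 1 by rw [hx, hy]; linear_combination t * h2]
  rw [abs_le] at *
  constructor <;> linarith

lemma widths {F : Set E2} (h0 : 0 ∈ F) (h1 : ∀ z ∈ F, |z 0| ≤ 1 ∧ |z 1| ≤ 1)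
    (hF : F = ⋃ d ∈ D, S d '' F) (N : ℕ) (a b : Fin N → E2) (ε : Fin N → ℝ) (hε : ∀ i, 0 < ε i)
    (hc : F ⊆ ⋃ i, thickening (ε i) (segment ℝ (a i) (b i))) :
    1 / (16 * Real.exp 2048) ≤ ∑ i, ε i := by
  choose α β c a0 b0 ab hz using fun i => normal (a i) (b i) (hε i)
  choose g G hd hg hB h1' using fun i => exG (c i) (4 * ε i) (by linarith [hε i])
  have t : ∀ (m : ℕ) (x : ℝ), 0 < m → Tendsto (fun k => |sc m x k|) atTop (𝓝 0) := fun m x hm => by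
    have m1 : (1 : ℝ) ≤ m := by exact_mod_cast hm
    simpa [sc] using ((tendsto_pow_atTop_atTop_of_one_lt (show (1 : ℝ) < 2 * m by linarith)).const_div_atTop
      x).abs
  obtain ⟨k, hk⟩ := (eventually_all.2 fun i => ((t 2 (α i) two_pos).add
    (t 8 (β i) (by norm_num))).eventually (gt_mem_nhds (by simpa using hε i))).exists
  have := L_ge hF k (fun x y => ∑ i, dl (sc 2 (α i) k) (dl (sc 8 (β i) k) (G i)) (α i * x + β i * y))
    fun x y h => by
      have m : !₂[x, y] ∈ F := by simpa using h 0 h0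
      obtain ⟨i, hi⟩ := mem_iUnion.1 (hc m)
      have q := hz i _ hi (h1 _ m).1 (h1 _ m).2
      rw [← h1' i _ _ (α i * x + β i * y) (sc_ne two_pos (a0 i) k) (sc_ne (m := 8) (by norm_num) (b0 i) k)
        (by have := hk i; simp only [Matrix.cons_val_zero, Matrix.cons_val_one] at q
            linarith)]
      exact Finset.single_le_sum (f := fun i => dl (sc 2 (α i) k) (dl (sc 8 (β i) k) (G i))
        (α i * x + β i * y)) (fun i _ => f1 (hd i) (hg i) _ _ _) (Finset.mem_univ i)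
  rw [L_sum] at this
  rw [div_le_iff₀ (by positivity), Finset.sum_mul]
  refine this.trans (Finset.sum_le_sum fun i _ => ?_)
  rw [L_E, ← act_dd, ← act_dd, ← act_mul, ← act_mul, mul_assoc]
  exact (bound (a0 i) (b0 i) (hd i) (hg i) (by linarith [hε i])
    (fun s => hB i _ _ s (a0 i) (b0 i) (ab i)) k 0).trans (le_of_eq (by ring))

lemma x1 (a b : E2) (h : 1 ≤ ‖b - a‖) (φ : E2 ≃ₗᵢ[ℝ] E2) (hφ : φ !₂[1, 0] = ‖b - a‖⁻¹ • (b - a))
    (z : E2) (x0 : 0 < z 0) (x1 : z 0 < 1) : a + φ (z 0 • !₂[1, 0]) ∈ segment ℝ a b := by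
  rw [segment_eq_image', map_smul, hφ, smul_smul]
  exact ⟨_, ⟨by positivity, mul_le_one₀ x1.le (by positivity) (inv_le_one_of_one_le₀ h)⟩, rfl⟩

lemma x2 (a : E2) (φ : E2 ≃ₗᵢ[ℝ] E2) (z : E2) {ε : ℝ} (y0 : 0 < z 1) (y1 : z 1 < ε) :
    dist (a + φ z) (a + φ (z 0 • !₂[1, 0])) < ε := by
  rw [dist_add_left, LinearIsometryEquiv.dist_map, EuclideanSpace.dist_eq]
  simpa [Real.sqrt_sq_eq_abs, abs_of_pos y0] using y1

lemma area (a b : E2) {ε : ℝ} (h : 1 ≤ dist a b) :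
    ENNReal.ofReal ε ≤ volume (thickening ε (segment ℝ a b)) := by
  rw [dist_comm, dist_eq_norm] at h
  have ne : ‖(!₂[1, 0] : E2)‖ = ‖‖b - a‖⁻¹ • (b - a)‖ := by
    rw [norm_smul, norm_inv, norm_norm, inv_mul_cancel₀ (by linarith), EuclideanSpace.norm_eq]
    simp
  obtain ⟨φ, hφ⟩ : ∃ φ : E2 ≃ₗᵢ[ℝ] E2, φ !₂[1, 0] = ‖b - a‖⁻¹ • (b - a) :=
    ⟨_, Submodule.reflection_sub ne⟩
  have mp : MeasurePreserving fun z : E2 => a + φ z :=
    (measurePreserving_add_left volume a).comp φ.measurePreserving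
  have h0 : MeasurePreserving fun z : E2 => (z 0, z 1) :=
    (volume_preserving_finTwoArrow ℝ).comp (PiLp.volume_preserving_ofLp (Fin 2))
  have e1 : volume (Ioo (0 : ℝ) 1 ×ˢ Ioo (0 : ℝ) ε) = ENNReal.ofReal ε := by
    rw [Measure.volume_eq_prod, Measure.prod_prod]; simp
  have e2 := mp.measure_preimage
    (isOpen_thickening (δ := ε) (E := segment ℝ a b)).measurableSet.nullMeasurableSet
  have e3 := h0.measure_preimage ((measurableSet_Ioo (a := (0 : ℝ)) (b := 1)).prod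
    (measurableSet_Ioo (a := (0 : ℝ)) (b := ε))).nullMeasurableSet
  rw [← e2, ← e1, ← e3]
  exact measure_mono fun z hz =>
    mem_thickening_iff.2 ⟨_, x1 a b h φ hφ z hz.1.1 hz.1.2, x2 a φ z hz.2.1 hz.2.2⟩

end Pool.Agent.H.MP_ef0505_an
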